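import Pool.Agent.W638.CW.Exist

/-!
# Dual webs of convex pre-foliations on the projective plane are flat (problem MP_5bde83_ag, Q1)

Homogeneous coordinates of the projective plane are `x = X 0`, `y = X 1`, `z = X 2`. A foliation of
degree `m` is given by a homogeneous vector field `V = V 0 ∂x + V 1 ∂y + V 2 ∂z` of degree `m`
(its 1-form `a dx + b dy + c dz` has as coefficients the `2 × 2` minors of the matrix with rows
`(x, y, z)` and `V`). In the affine chart `z = 1` it is given by `A dx + B dy` with
`A = V 1 - y V 2` and `B = x V 2 - V 0`. The line `y = p x - q` is the point `(p, q)` of the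
dual plane, and on it `A + p B = V 1 - p V 0 + q V 2`.

1-forms `α dp + β dq` are written as pairs `(α, β)`, 2-forms `K dp ∧ dq` as their coefficient `K`.
The functions of `(p, q)` (possibly after a ramified covering of the dual plane) are the elements of
a field `M` with two commuting derivations and two coordinate functions (`Coordinates`).
-/

set_option autoImplicit false

open MvPolynomial

namespace Pool.Agent.Results.MP_5bde83_ag.ConvexDualWebsFlat

universe u

/-- polynomials in the homogeneous coordinates -/
abbrev R3 := MvPolynomial (Fin 3) ℂ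

/-- the derivative of `f` along the vector field `V` -/
noncomputable def along (V : Fin 3 → R3) (f : R3) : R3 := ∑ k : Fin 3, V k * pderiv k f

/-- the inflection polynomial of the foliation: the determinant with the rows `(x, y, z)`, `V` and
`V(V)` -/
noncomputable def inflection (V : Fin 3 → R3) : R3 :=
  Matrix.det (Matrix.of ![(fun j : Fin 3 => (X j : R3)), V, (fun j : Fin 3 => along V (V j))])

/-- `V` gives a convex foliation of degree `m`: the components are homogeneous of degree `m`, the
coefficients of the 1-form have no common factor, and each irreducible factor of the inflection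
polynomial is (up to a constant) a linear form `L` whose line is invariant, that is `L` divides
`V(L)`. -/
structure IsConvexFoliation (m : ℕ) (V : Fin 3 → R3) : Prop where
  homogeneous : ∀ i, (V i).IsHomogeneous m
  noCommonFactor : ∀ g : R3, g ∣ V 1 * X 2 - V 2 * X 1 → g ∣ V 2 * X 0 - V 0 * X 2 →
    g ∣ V 0 * X 1 - V 1 * X 0 → IsUnit g
  convex : ∀ g : R3, Irreducible g → g ∣ inflection V →
    ∃ a : Fin 3 → ℂ, Associated g (∑ i : Fin 3, (C (a i) * X i : R3)) ∧
      (∑ i : Fin 3, (C (a i) * X i : R3)) ∣ ∑ i : Fin 3, C (a i) * V i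

/-- `F = 0` is a reduced curve of degree `k` which is invariant by the foliation of `V`. -/
structure IsReducedInvariantCurve (k : ℕ) (V : Fin 3 → R3) (F : R3) : Prop where
  homogeneous : F.IsHomogeneous k
  squarefree : Squarefree F
  invariant : F ∣ along V F

/-- The structure of a field of functions of `(p, q)` on the field `M`: the commuting derivations
`∂/∂p`, `∂/∂q` and the coordinate functions `p`, `q`. -/
structure Coordinates (M : Type u) [Field M] [Algebra ℂ M] where
  Dp : Derivation ℂ M M
  Dq : Derivation ℂ M M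
  p : M
  q : M
  comm : ∀ f, Dp (Dq f) = Dq (Dp f)
  Dp_p : Dp p = 1
  Dp_q : Dp q = 0
  Dq_p : Dq p = 0
  Dq_q : Dq q = 1

section

variable {M : Type u} [Field M] [Algebra ℂ M]

/-- The left side of the equation of the dual web: with `x = dq / dp = s / t` it is
`t ^ d * f(x, p x - q) * (A(x, p x - q) + p B(x, p x - q))`, written without denominators, as a
binary form of degree `d` in `(dq, dp) = (s, t)`. -/
noncomputable def webForm (Z : Coordinates M) (V : Fin 3 → R3) (F : R3) (s t : M) : M :=
  aeval ![s, Z.p * s - Z.q * t, t] F *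
    (aeval ![s, Z.p * s - Z.q * t, t] (V 1) - Z.p * aeval ![s, Z.p * s - Z.q * t, t] (V 0) +
      Z.q * aeval ![s, Z.p * s - Z.q * t, t] (V 2))

/-- The dual web is given over `M` by the 1-forms `ω i = (ω i).1 dp + (ω i).2 dq`: the web form is
the product of the `ω i` (evaluated at `(dp, dq) = (t, s)`). -/
def Decomposes {d : ℕ} (Z : Coordinates M) (V : Fin 3 → R3) (F : R3) (ω : Fin d → M × M) : Prop :=
  ∀ s t : M, webForm Z V F s t = ∏ i, ((ω i).1 * t + (ω i).2 * s)

/-- the exterior product `α ∧ β` -/
def wedge (α β : M × M) : M := α.1 * β.2 - α.2 * β.1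

/-- the exterior derivative `dα` -/
def ext (Z : Coordinates M) (α : M × M) : M := Z.Dp α.2 - Z.Dq α.1

/-- `η` is a Blaschke form of the 3-web of `α`, `β`, `γ`: for suitable multiples
`ω₁ = u α`, `ω₂ = v β`, `ω₃ = w γ` with `ω₁ + ω₂ + ω₃ = 0` one has `dωᵣ = η ∧ ωᵣ` for `r = 1, 2, 3`.
The Blaschke curvature of the 3-web is `dη`. -/
def IsBlaschkeForm (Z : Coordinates M) (α β γ η : M × M) : Prop :=
  ∃ u v w : M, u ≠ 0 ∧ v ≠ 0 ∧ w ≠ 0 ∧ u • α + v • β + w • γ = 0 ∧
    ext Z (u • α) = wedge η (u • α) ∧ ext Z (v • β) = wedge η (v • β) ∧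
    ext Z (w • γ) = wedge η (w • γ)

end

/-- The dual web of every convex pre-foliation of degree `d = k + m ≥ 3` and co-degree `k < d` is
flat: it is completely decomposable over a suitable field of functions, and over every such field
its `d` forms are pairwise independent, its 3-subwebs have Blaschke forms, and the sum of the
Blaschke curvatures of all 3-subwebs vanishes. -/
theorem result (k m : ℕ) (hm : 1 ≤ m) (hd : 3 ≤ k + m) (V : Fin 3 → R3) (F : R3)
    (hV : IsConvexFoliation m V) (hF : IsReducedInvariantCurve k V F) :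
    (∃ (M : Type) (_ : Field M) (_ : Algebra ℂ M) (Z : Coordinates M)
      (ω : Fin (k + m) → M × M), Decomposes Z V F ω) ∧
    ∀ (M : Type u) [Field M] [Algebra ℂ M] (Z : Coordinates M) (ω : Fin (k + m) → M × M),
      Decomposes Z V F ω →
      (∀ i j, i ≠ j → wedge (ω i) (ω j) ≠ 0) ∧
      (∀ i j l, i < j → j < l → ∃ η, IsBlaschkeForm Z (ω i) (ω j) (ω l) η) ∧
      ∀ η : Fin (k + m) → Fin (k + m) → Fin (k + m) → M × M,
        (∀ i j l, i < j → j < l → IsBlaschkeForm Z (ω i) (ω j) (ω l) (η i j l)) →
        ∑ i, ∑ j ∈ Finset.Ioi i, ∑ l ∈ Finset.Ioi j, ext Z (η i j l) = 0 := by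
  have hne : inflection V ≠ 0 := by
    intro h0
    have hirr : Irreducible (X 0 - C 1 : R3) := by
      apply irreducible_of_totalDegree_eq_one
      · apply le_antisymm
        · refine (totalDegree_sub _ _).trans (max_le (by rw [totalDegree_X])
            (by rw [totalDegree_C]; omega))
        · have h5 : coeff (Finsupp.single 0 1) (X 0 - C 1 : R3) ≠ 0 := by
            rw [coeff_sub, coeff_X, coeff_C, if_pos rfl, if_neg]
            · simp
            · intro h6
              have := congrArg (fun s : Fin 3 →₀ ℕ => s 0) h6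
              simp at this
          have h6 := Finset.le_sup (f := fun s : Fin 3 →₀ ℕ => s.sum fun _ e => e)
            (mem_support_iff.2 h5)
          simp only [Finsupp.sum_single_index] at h6
          exact h6
      · intro x hx
        have h5 := hx (Finsupp.single 0 1)
        rw [coeff_sub, coeff_X, coeff_C, if_pos rfl, if_neg] at h5
        · simp at h5
          exact isUnit_iff_ne_zero.2 h5
        · intro h6
          have := congrArg (fun s : Fin 3 →₀ ℕ => s 0) h6
          simp at this
    obtain ⟨a, ⟨u, hu⟩, -⟩ := hV.convex _ hirr (by rw [h0]; exact dvd_zero _)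
    have h5 := congrArg (eval (0 : Fin 3 → ℂ)) hu
    rw [map_mul, map_sum] at h5
    simp at h5
    exact (u.isUnit.map (eval (0 : Fin 3 → ℂ))).ne_zero (by simpa using h5)
  have hCv : Pool.Agent.W510.Cvx.Cv m V := ⟨hV.homogeneous, hV.noCommonFactor, hne, hV.convex⟩
  have hinv : F ∣ Pool.Agent.W510.Cvx.drv V F := hF.invariant
  refine ⟨?_, ?_⟩
  · obtain ⟨M, i1, i2, D₁, D₂, p, q, a, b, hc, h⟩ :=
      Pool.Agent.W638.CW.exists_split (n := k + m) (by omega) hV.homogeneous hF.homogeneous rfl
    refine ⟨M, i1, i2, ⟨D₁, D₂, p, q, hc.comm, hc.D₁p, hc.D₁q, hc.D₂p, hc.D₂q⟩,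
      fun i => (b i, a i), fun s t => ?_⟩
    refine (h s t).trans ?_
    exact Finset.prod_congr rfl (fun i _ => add_comm _ _)
  · intro M _ _ Z ω hω
    have hcrd : Pool.Agent.W638.CW.Crd Z.Dp Z.Dq Z.p Z.q :=
      ⟨Z.comm, Z.Dp_p, Z.Dp_q, Z.Dq_p, Z.Dq_q⟩
    obtain ⟨h1, h2, h3⟩ := Pool.Agent.W638.CW.general (n := k + m) hm hCv hF.homogeneous
      hF.squarefree hinv rfl hcrd (a := fun i => (ω i).2) (b := fun i => (ω i).1) (by
        intro s t
        refine (hω s t).trans ?_
        exact Finset.prod_congr rfl (fun i _ => add_comm _ _))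
    refine ⟨h1, ?_, h3⟩
    intro i j l hij hjl
    exact h2 i j l hij.ne hjl.ne (hij.trans hjl).ne

end Pool.Agent.Results.MP_5bde83_ag.ConvexDualWebsFlat
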